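import Mathlib

set_option autoImplicit false

open Set Topology

namespace Pool.Agent.Results.MP_0ef12e_an.SquareRoot

/-- A random substitution: each letter has a nonempty finite set of nonempty image words. -/
structure RandomSubst (A : Type) where
  img : A → Set (List A)
  finite_img : ∀ a, (img a).Finite
  nonempty_img : ∀ a, (img a).Nonempty
  ne_nil : ∀ a, ∀ w ∈ img a, w ≠ []

namespace RandomSubst

variable {A : Type} (T : RandomSubst A)

/-- The image set of a word: `ϑ(u₀ ... uₙ) = ϑ(u₀) ... ϑ(uₙ)` (set concatenation). -/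
def onWord : List A → Set (List A)
  | [] => {[]}
  | a :: w => {t | ∃ u ∈ T.img a, ∃ v ∈ onWord w, t = u ++ v}

/-- The set `ϑ^p(w)`. -/
def pow : ℕ → List A → Set (List A)
  | 0, w => {w}
  | p + 1, w => {t | ∃ v ∈ pow p w, t ∈ T.onWord v}

/-- A word is legal if it is a subword of an element of some `ϑ^p(a)`. -/
def Legal (u : List A) : Prop := ∃ a : A, ∃ p : ℕ, ∃ w ∈ T.pow p [a], u <:+: w

/-- The subshift of the random substitution. -/
def X : Set (ℤ → A) :=
  {x | ∀ (i : ℤ) (n : ℕ), T.Legal (List.ofFn fun j : Fin n => x (i + (j : ℕ)))}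

/-- Compatible: all words in `ϑ(a)` contain each letter the same number of times. -/
def Compatible [DecidableEq A] : Prop :=
  ∀ a : A, ∀ u ∈ T.img a, ∀ v ∈ T.img a, ∀ b : A, u.count b = v.count b

/-- Primitive: for some `p ≥ 1`, every letter occurs in some word of `ϑ^p(b)`, for each `b`. -/
def Primitive : Prop := ∃ p : ℕ, 1 ≤ p ∧ ∀ a b : A, ∃ w ∈ T.pow p [b], a ∈ w

/-- Non-degenerate: some letter has at least two images. -/
def NonDegenerate : Prop := ∃ a : A, ∃ u ∈ T.img a, ∃ v ∈ T.img a, u ≠ v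

/-- The shift on the subshift. -/
def shift (x : T.X) : T.X :=
  ⟨fun i => x.1 (i + 1), fun i n => by
    have h := x.2 (i + 1) n
    have e : (List.ofFn fun j : Fin n => x.1 (i + (j : ℕ) + 1)) =
        List.ofFn fun j : Fin n => x.1 (i + 1 + (j : ℕ)) := by
      congr 1
      funext j
      exact congrArg x.1 (by ring)
    rw [e]
    exact h⟩

end RandomSubst

/-- The four words `caabb, cabab, cabba, cbaab` (`a = 0`, `b = 1`, `c = 2`), indexed by pairs of
booleans. -/
def wd : Bool × Bool → List (Fin 3)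
  | (false, false) => [2, 0, 0, 1, 1]
  | (false, true) => [2, 0, 1, 0, 1]
  | (true, false) => [2, 0, 1, 1, 0]
  | (true, true) => [2, 1, 0, 0, 1]

/-- The random substitution mapping every letter to the same four words. -/
def T : RandomSubst (Fin 3) where
  img _ := range wd
  finite_img _ := finite_range wd
  nonempty_img _ := range_nonempty wd
  ne_nil := by
    rintro _ _ ⟨⟨a, b⟩, rfl⟩
    cases a <;> cases b <;> simp [wd]

lemma wd_length (b : Bool × Bool) : (wd b).length = 5 := by
  rcases b with ⟨a, b⟩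
  cases a <;> cases b <;> rfl

/-- Letter of a block word. -/
def wl (b : Bool × Bool) (t : ℕ) : Fin 3 := (wd b).getD t 0

lemma wl_eq_two : ∀ (b : Bool × Bool) (t : ℕ), t < 5 → (wl b t = 2 ↔ t = 0) := by
  intro b t ht
  have : ∀ (b : Bool × Bool) (t : Fin 5), wl b t = 2 ↔ (t : ℕ) = 0 := by decide
  exact this b ⟨t, ht⟩

lemma wl_inj (b b' : Bool × Bool) (h : ∀ t < 5, wl b t = wl b' t) : b = b' := by
  have : ∀ b b' : Bool × Bool, (∀ t : Fin 5, wl b t = wl b' t) → b = b' := by decide
  exact this b b' (fun t => h t t.2)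

/-- Concatenations of blocks. -/
def cat (l : List (Bool × Bool)) : List (Fin 3) := (l.map wd).flatten

lemma cat_cons (b : Bool × Bool) (l : List (Bool × Bool)) : cat (b :: l) = wd b ++ cat l := by
  simp [cat]

lemma cat_length (l : List (Bool × Bool)) : (cat l).length = 5 * l.length := by
  induction l with
  | nil => rfl
  | cons b l ih => rw [cat_cons, List.length_append, wd_length, ih, List.length_cons]; ring

lemma cat_getD (l : List (Bool × Bool)) (j : ℕ) (hj : j < 5 * l.length) :
    (cat l).getD j 0 = wl (l.getD (j / 5) (false, false)) (j % 5) := by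
  induction l generalizing j with
  | nil => simp at hj
  | cons b l ih =>
    rw [cat_cons]
    by_cases h : j < 5
    · rw [List.getD_append _ _ _ _ (by rw [wd_length]; exact h)]
      rw [Nat.div_eq_of_lt h, Nat.mod_eq_of_lt h]
      rfl
    · push Not at h
      rw [List.getD_append_right _ _ _ _ (by rw [wd_length]; exact h), wd_length]
      rw [List.length_cons] at hj
      rw [ih (j - 5) (by omega)]
      have h1 : j / 5 = (j - 5) / 5 + 1 := by omega
      have h2 : j % 5 = (j - 5) % 5 := by omega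
      rw [h1, h2, List.getD_cons_succ]

lemma onWord_eq (w : List (Fin 3)) :
    T.onWord w = {t | ∃ l : List (Bool × Bool), l.length = w.length ∧ t = cat l} := by
  induction w with
  | nil =>
    ext t
    simp only [RandomSubst.onWord, mem_singleton_iff, Set.mem_ofPred_eq, List.length_nil]
    constructor
    · rintro rfl
      exact ⟨[], rfl, rfl⟩
    · rintro ⟨l, hl, rfl⟩
      rw [List.length_eq_zero_iff.mp hl]
      rfl
  | cons a w ih =>
    ext t
    simp only [RandomSubst.onWord, ih, Set.mem_ofPred_eq, List.length_cons]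
    constructor
    · rintro ⟨u, ⟨b, rfl⟩, v, ⟨l, hl, rfl⟩, rfl⟩
      exact ⟨b :: l, by simp [hl], (cat_cons b l).symm⟩
    · rintro ⟨l, hl, rfl⟩
      cases l with
      | nil => simp at hl
      | cons b l =>
        refine ⟨wd b, ⟨b, rfl⟩, cat l, ⟨l, by simpa using hl, rfl⟩, cat_cons b l⟩

lemma pow_eq (a : Fin 3) (p : ℕ) :
    T.pow (p + 1) [a] = {t | ∃ l : List (Bool × Bool), l.length = 5 ^ p ∧ t = cat l} := by
  induction p with
  | zero =>
    ext t
    have : T.pow (0 + 1) [a] = {t | ∃ v ∈ ({[a]} : Set (List (Fin 3))), t ∈ T.onWord v} := rfl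
    rw [this]
    simp only [mem_singleton_iff, exists_eq_left, onWord_eq, Set.mem_ofPred_eq]
    simp
  | succ p ih =>
    ext t
    have : T.pow (p + 1 + 1) [a] = {t | ∃ v ∈ T.pow (p + 1) [a], t ∈ T.onWord v} := rfl
    rw [this]
    simp only [ih, onWord_eq, Set.mem_ofPred_eq]
    constructor
    · rintro ⟨v, ⟨l, hl, rfl⟩, l', hl', rfl⟩
      refine ⟨l', ?_, rfl⟩
      rw [hl', cat_length, hl]; ring
    · rintro ⟨l, hl, rfl⟩
      refine ⟨cat (List.replicate (5 ^ p) (false, false)), ⟨_, by simp, rfl⟩, l, ?_, rfl⟩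
      rw [hl, cat_length, List.length_replicate]; ring

/-- Legal words of length at least two are read off a sequence of blocks. -/
lemma legal_blocks (u : List (Fin 3)) (hu : T.Legal u) (h2 : 2 ≤ u.length) :
    ∃ (s : ℕ) (bl : ℕ → Bool × Bool), ∀ j < u.length,
      u.getD j 0 = wl (bl ((s + j) / 5)) ((s + j) % 5) := by
  obtain ⟨a, p, w, hw, s, t, hst⟩ := hu
  cases p with
  | zero =>
    exfalso
    have : w = [a] := hw
    subst this
    have := congrArg List.length hst
    simp at this
    omega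
  | succ p =>
    rw [pow_eq] at hw
    obtain ⟨l, _, rfl⟩ := hw
    refine ⟨s.length, fun k => l.getD k (false, false), fun j hj => ?_⟩
    have hlen := congrArg List.length hst
    rw [cat_length] at hlen
    simp only [List.length_append] at hlen
    rw [← cat_getD l (s.length + j) (by omega), ← hst]
    rw [List.getD_append _ _ _ _ (by rw [List.length_append]; omega)]
    rw [List.getD_append_right _ _ _ _ (by omega)]
    congr 1
    omega

/-- The configuration coded by an offset `r` and a sequence `z` of bits. -/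
def Phi (r : ℤ) (z : ℤ → Bool) : ℤ → Fin 3 := fun i =>
  wl (z (2 * ((i + r) / 5)), z (2 * ((i + r) / 5) + 1)) ((i + r) % 5).toNat

lemma Phi_two (r : ℤ) (z : ℤ → Bool) (i : ℤ) : Phi r z i = 2 ↔ (i + r) % 5 = 0 := by
  unfold Phi
  rw [wl_eq_two _ _ (by omega)]
  omega

lemma Phi_block (r : ℤ) (z : ℤ → Bool) (q : ℤ) (t : ℕ) (ht : t < 5) :
    Phi r z (5 * q - r + t) = wl (z (2 * q), z (2 * q + 1)) t := by
  unfold Phi
  have h1 : (5 * q - r + t + r) / 5 = q := by omega
  have h2 : ((5 * q - r + t + r) % 5).toNat = t := by omega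
  rw [h1, h2]

lemma Phi_shift (r : ℤ) (z : ℤ → Bool) (i : ℤ) : Phi r z (i + 1) = Phi (r + 1) z i := by
  unfold Phi
  have : i + 1 + r = i + (r + 1) := by ring
  rw [this]

lemma Phi_add_five (r k : ℤ) (z : ℤ → Bool) :
    Phi (r + 5 * k) z = Phi r (fun n => z (n + 2 * k)) := by
  funext i
  unfold Phi
  have h1 : (i + (r + 5 * k)) / 5 = (i + r) / 5 + k := by omega
  have h2 : (i + (r + 5 * k)) % 5 = (i + r) % 5 := by omega
  rw [h1, h2]
  congr 3
  · ring
  · ring

lemma Phi_inj {r r' : ℤ} {z z' : ℤ → Bool} (h : Phi r z = Phi r' z') :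
    ∃ k : ℤ, r' = r + 5 * k ∧ z = fun n => z' (n + 2 * k) := by
  have h0 : (-r + r') % 5 = 0 := by
    rw [← Phi_two r' z' (-r), ← h, Phi_two]
    simp
  obtain ⟨k, hk⟩ : ∃ k, r' = r + 5 * k := ⟨(-r + r') / 5, by omega⟩
  refine ⟨k, hk, ?_⟩
  rw [hk, Phi_add_five] at h
  have hb : ∀ q, (z (2 * q), z (2 * q + 1)) = (z' (2 * q + 2 * k), z' (2 * q + 1 + 2 * k)) := by
    intro q
    apply wl_inj
    intro t ht
    have := congrFun h (5 * q - r + t)
    rw [Phi_block _ _ _ _ ht, Phi_block _ _ _ _ ht] at this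
    exact this
  funext n
  rcases Int.even_or_odd' n with ⟨q, rfl | rfl⟩
  · exact (Prod.ext_iff.mp (hb q)).1
  · exact (Prod.ext_iff.mp (hb q)).2

lemma Phi_mem (r : ℤ) (z : ℤ → Bool) : Phi r z ∈ T.X := by
  intro i n
  -- the block index of the first letter, and enough blocks
  set q₀ := (i + r) / 5 with hq
  set s := ((i + r) % 5).toNat with hs
  refine ⟨0, n + 1 + 1, cat (List.ofFn fun k : Fin (5 ^ (n + 1)) =>
    (z (2 * (q₀ + (k : ℕ))), z (2 * (q₀ + (k : ℕ)) + 1))), ?_, ?_⟩
  · rw [pow_eq]
    exact ⟨_, by simp, rfl⟩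
  · set l := List.ofFn fun k : Fin (5 ^ (n + 1)) =>
      (z (2 * (q₀ + (k : ℕ))), z (2 * (q₀ + (k : ℕ)) + 1)) with hl
    have hlen : l.length = 5 ^ (n + 1) := by simp [hl]
    have hbig : n + 1 ≤ 5 ^ (n + 1) := (Nat.lt_pow_self (by norm_num)).le
    have key : (List.ofFn fun j : Fin n => Phi r z (i + (j : ℕ))) =
        ((cat l).drop s).take n := by
      apply List.ext_getElem
      · simp only [List.length_ofFn, List.length_take, List.length_drop, cat_length, hlen]
        omega
      · intro j h1 h2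
        have hj : j < n := by simpa using h1
        rw [List.getElem_ofFn, List.getElem_take, List.getElem_drop]
        have hsj : s + j < (cat l).length := by rw [cat_length, hlen]; omega
        rw [← List.getD_eq_getElem (cat l) 0 hsj, cat_getD _ _ (by rw [hlen]; omega)]
        unfold Phi
        have e1 : (i + (j : ℕ) + r) / 5 = q₀ + (((s + j) / 5 : ℕ) : ℤ) := by omega
        have e2 : ((i + (j : ℕ) + r) % 5).toNat = (s + j) % 5 := by omega
        have e3 : (s + j) / 5 < l.length := by rw [hlen]; omega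
        simp only
        rw [e1, e2, List.getD_eq_getElem _ _ e3]
        simp [hl]
    rw [key]
    exact (List.take_prefix _ _).isInfix.trans (List.drop_suffix _ _).isInfix

lemma mem_X (x : ℤ → Fin 3) (hx : x ∈ T.X) : ∃ (r : ℤ) (z : ℤ → Bool), x = Phi r z := by
  -- windows read off block sequences
  have hwin : ∀ (i : ℤ) (n : ℕ), 2 ≤ n → ∃ (s : ℕ) (bl : ℕ → Bool × Bool), ∀ j < n,
      x (i + (j : ℕ)) = wl (bl ((s + j) / 5)) ((s + j) % 5) := by
    intro i n hn
    obtain ⟨s, bl, h⟩ := legal_blocks _ (hx i n) (by simpa using hn)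
    refine ⟨s, bl, fun j hj => ?_⟩
    rw [← h j (by simpa using hj), List.getD_eq_getElem _ _ (by simpa using hj)]
    simp
  -- a position of the letter `2`
  obtain ⟨i₀, hi₀⟩ : ∃ i₀ : ℤ, x i₀ = 2 := by
    obtain ⟨s, bl, h⟩ := hwin 0 5 (by norm_num)
    have := h ((5 - s % 5) % 5) (by omega)
    refine ⟨_, this.trans ?_⟩
    rw [wl_eq_two _ _ (by omega)]
    omega
  have hblock : ∀ q : ℤ, ∃ b : Bool × Bool, ∀ t : ℕ, t < 5 → x (5 * q + i₀ + t) = wl b t := by
    intro q
    set m := min i₀ (5 * q + i₀) with hm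
    obtain ⟨s, bl, h⟩ := hwin m (5 * q.natAbs + 5) (by omega)
    have h0 := h (i₀ - m).toNat (by omega)
    have e0 : m + ((i₀ - m).toNat : ℤ) = i₀ := by omega
    rw [e0, hi₀] at h0
    have h0' := (wl_eq_two _ _ (by omega)).mp h0.symm
    refine ⟨bl ((s + (5 * q + i₀ - m).toNat) / 5), fun t ht => ?_⟩
    have h1 := h ((5 * q + i₀ - m).toNat + t) (by omega)
    have e1 : m + (((5 * q + i₀ - m).toNat + t : ℕ) : ℤ) = 5 * q + i₀ + t := by omega
    rw [e1] at h1
    rw [h1]
    have e2 : (s + ((5 * q + i₀ - m).toNat + t)) / 5 = (s + (5 * q + i₀ - m).toNat) / 5 := by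
      omega
    have e3 : (s + ((5 * q + i₀ - m).toNat + t)) % 5 = t := by omega
    rw [e2, e3]
  choose b hb using hblock
  refine ⟨-i₀, fun n => if n % 2 = 0 then (b (n / 2)).1 else (b (n / 2)).2, ?_⟩
  funext i
  have hi : i = 5 * ((i - i₀) / 5) + i₀ + (((i - i₀) % 5).toNat : ℕ) := by omega
  have h1 := hb ((i - i₀) / 5) ((i - i₀) % 5).toNat (by omega)
  rw [← hi] at h1
  rw [h1]
  unfold Phi
  have e1 : i + -i₀ = i - i₀ := by ring
  have e2 : 2 * ((i - i₀) / 5) % 2 = 0 := by omega
  have e3 : ¬ (2 * ((i - i₀) / 5) + 1) % 2 = 0 := by omega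
  have e4 : 2 * ((i - i₀) / 5) / 2 = (i - i₀) / 5 := by omega
  have e5 : (2 * ((i - i₀) / 5) + 1) / 2 = (i - i₀) / 5 := by omega
  simp only [e1, e2, e3, e4, e5, if_true, if_false]

/-- The parametrisation of the subshift. -/
def par (r : ℤ) (z : ℤ → Bool) : T.X := ⟨Phi r z, Phi_mem r z⟩

lemma par_surj (x : T.X) : ∃ (r : ℤ) (z : ℤ → Bool), par r z = x := by
  obtain ⟨r, z, h⟩ := mem_X x.1 x.2
  exact ⟨r, z, Subtype.ext h.symm⟩

lemma shift_par (r : ℤ) (z : ℤ → Bool) : T.shift (par r z) = par (r + 1) z := by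
  apply Subtype.ext
  funext i
  exact Phi_shift r z i

lemma par_add_five (r k : ℤ) (z : ℤ → Bool) :
    par (r + 5 * k) z = par r (fun n => z (n + 2 * k)) :=
  Subtype.ext (Phi_add_five r k z)

/-- The square root of the shift: `f (par r z) = par (r + 3) (z(· - 1))`. -/
noncomputable def f (x : T.X) : T.X :=
  par ((par_surj x).choose + 3) (fun n => (par_surj x).choose_spec.choose (n - 1))

lemma par_step {r r' : ℤ} {z z' : ℤ → Bool} (h : par r' z' = par r z) :
    par (r' + 3) (fun n => z' (n - 1)) = par (r + 3) (fun n => z (n - 1)) := by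
  obtain ⟨k, hk, hz⟩ := Phi_inj (congrArg Subtype.val h)
  have e : r + 3 = (r' + 3) + 5 * k := by rw [hk]; ring
  rw [e, par_add_five, hz]
  congr 1
  funext n
  exact congrArg z (by ring)

lemma f_par (r : ℤ) (z : ℤ → Bool) : f (par r z) = par (r + 3) (fun n => z (n - 1)) :=
  par_step (par_surj (par r z)).choose_spec.choose_spec

lemma f_f (x : T.X) : f (f x) = T.shift x := by
  obtain ⟨r, z, rfl⟩ := par_surj x
  rw [f_par, f_par, shift_par]
  have e : r + 3 + 3 = (r + 1) + 5 * 1 := by ring
  rw [e, par_add_five]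
  congr 1
  funext n
  congr 1
  ring

lemma f_shift (x : T.X) : f (T.shift x) = T.shift (f x) := by
  rw [← f_f x, ← f_f (f x)]

/-- Continuity of the parametrisation. -/
lemma continuous_par (r : ℤ) : Continuous (par r) := by
  refine Continuous.subtype_mk ?_ _
  refine continuous_pi fun i => ?_
  unfold Phi
  have h : Continuous (fun b : Bool × Bool => wl b ((i + r) % 5).toNat) :=
    continuous_of_discreteTopology
  exact h.comp ((continuous_apply _).prodMk (continuous_apply _))

/-- The compact parameter space. -/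
def par5 (p : Fin 5 × (ℤ → Bool)) : T.X := par ((p.1 : ℕ) : ℤ) p.2

lemma continuous_par5 : Continuous par5 := by
  rw [continuous_def]
  intro U hU
  rw [isOpen_prod_iff]
  rintro r z hrz
  refine ⟨{r}, (par ((r : ℕ) : ℤ)) ⁻¹' U, isOpen_discrete _, (continuous_par _).isOpen_preimage _ hU,
    rfl, hrz, ?_⟩
  rintro ⟨r', z'⟩ ⟨hr', hz'⟩
  have : r' = r := hr'
  subst this
  exact hz'

lemma par5_surj : Function.Surjective par5 := by
  intro x
  obtain ⟨r, z, rfl⟩ := par_surj x
  refine ⟨(⟨(r % 5).toNat, by omega⟩, fun n => z (n + 2 * (r / 5))), ?_⟩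
  unfold par5
  simp only
  rw [← par_add_five]
  congr 1
  omega

lemma continuous_f : Continuous f := by
  have hq : IsQuotientMap par5 :=
    (continuous_par5.isClosedMap).isQuotientMap continuous_par5 par5_surj
  rw [hq.continuous_iff, continuous_def]
  intro U hU
  rw [isOpen_prod_iff]
  rintro r z hrz
  have hc : Continuous (fun z : ℤ → Bool => par (((r : ℕ) : ℤ) + 3) (fun n => z (n - 1))) :=
    (continuous_par _).comp (continuous_pi fun n => continuous_apply _)
  refine ⟨{r}, _, isOpen_discrete _, hc.isOpen_preimage _ hU, rfl, ?_, ?_⟩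
  · have : f (par5 (r, z)) ∈ U := hrz
    unfold par5 at this
    rw [f_par] at this
    exact this
  · rintro ⟨r', z'⟩ ⟨hr', hz'⟩
    have : r' = r := hr'
    subst this
    show f (par5 (r', z')) ∈ U
    unfold par5
    rw [f_par]
    exact hz'

lemma shift_bijective : Function.Bijective T.shift := by
  constructor
  · intro x y h
    apply Subtype.ext
    funext i
    have := congrFun (congrArg Subtype.val h) (i - 1)
    simpa [RandomSubst.shift] using this
  · intro y
    obtain ⟨r, z, rfl⟩ := par_surj y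
    exact ⟨par (r - 1) z, by rw [shift_par]; congr 1; ring⟩

lemma f_bijective : Function.Bijective f := by
  constructor
  · intro x y h
    apply shift_bijective.1
    rw [← f_f, ← f_f, h]
  · intro y
    obtain ⟨x, rfl⟩ := shift_bijective.2 y
    exact ⟨f x, f_f x⟩

instance : CompactSpace T.X := by
  rw [← isCompact_univ_iff, ← par5_surj.range_eq]
  exact isCompact_range continuous_par5

/-- `f` as a homeomorphism. -/
noncomputable def fHomeo : T.X ≃ₜ T.X :=
  Continuous.homeoOfEquivCompactToT2 (f := Equiv.ofBijective f f_bijective) continuous_f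

/-- **A random substitution whose shift has a square root.**
There is a primitive, compatible, non-degenerate random substitution on three letters and an
automorphism `f` of its subshift (a self-homeomorphism commuting with the shift) whose square is
the shift. -/
theorem result :
    ∃ S : RandomSubst (Fin 3), S.Primitive ∧ S.Compatible ∧ S.NonDegenerate ∧
      ∃ f : S.X ≃ₜ S.X, (∀ x, f (S.shift x) = S.shift (f x)) ∧ ∀ x, f (f x) = S.shift x := by
  refine ⟨T, ?_, ?_, ?_, fHomeo, f_shift, f_f⟩
  · refine ⟨1, le_rfl, fun a b => ?_⟩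
    refine ⟨wd (false, false), ?_, ?_⟩
    · have := pow_eq b 0
      rw [zero_add] at this
      rw [this]
      exact ⟨[(false, false)], by simp, by simp [cat]⟩
    · fin_cases a <;> simp [wd]
  · rintro a _ ⟨u, rfl⟩ _ ⟨v, rfl⟩ b
    revert u v b
    decide
  · refine ⟨0, wd (false, false), ⟨_, rfl⟩, wd (false, true), ⟨_, rfl⟩, by decide⟩

end Pool.Agent.Results.MP_0ef12e_an.SquareRoot
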